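import Pool.Agent.W_7d29a1_WP.DefsWP

/-!
Theorem W2: in two transversal dimensions the mean square displacement is superdiffusive, with a
power, in almost every direction, every law. Definitions and frozen statements of the leaves.
Everything as in `W_7d29a1_WP/DefsWP.lean`, with the weak second moment in place of the weak
fourth moment.
-/

namespace Pool.Agent.W_7d29a1_W2

open MeasureTheory ProbabilityTheory Filter Topology Pool.Agent.W_MP_7d29a1_pr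
  Pool.Agent.W_7d29a1_h46 Pool.Agent.W_7d29a1_h46u Pool.Agent.W_7d29a1_D2.B35
  Pool.Agent.W_7d29a1_Q29 Pool.Agent.W_7d29a1_R34 Pool.Agent.W_7d29a1_SP Pool.Agent.W_7d29a1_SD
  Pool.Agent.W_7d29a1_SW Pool.Agent.W_7d29a1_AM Pool.Agent.W_7d29a1_WP

/-- The probability that the resampling of the rows `> p` changes `log Z_n` by more than `u`. -/
noncomputable def Dt {d : ℕ} (ρ : Measure ℝ) (β : ℝ) (h : Vec d) (n p : ℕ) (u : ℝ) : ℝ :=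
  ((law d ρ).prod (law d ρ)).real
    {w | u < |X β h w.1 n - X β h (spl (Pa d p) w.1 w.2) n|}

/-- The first moment of the bulk deviation. -/
noncomputable def B1 {d : ℕ} (ρ : Measure ℝ) (β : ℝ) (h : Vec d) (n p : ℕ) : ℝ :=
  ∫ η, |X β h η n - cE ρ (Pa d p) (fun ζ => X β h ζ n) η| ∂(law d ρ)

/-- The bulk bound at the length `L`: weak first moment and first moment. -/
def Bk {d : ℕ} (ρ : Measure ℝ) (β : ℝ) (h : Vec d) (θ : ℝ) (L : ℕ) (K : ℝ) : Prop :=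
  ∀ p : ℕ, ⌊θ * L⌋₊ ≤ p → (∀ u : ℝ, 0 < u → u * Dt ρ β h L p u ≤ K) ∧ B1 ρ β h L p ≤ K

/-- The hypothesis to be contradicted: `max ‖S_i - i v‖` has a weak second moment `≤ n G n`. -/
def HW2 {d : ℕ} (ρ : Measure ℝ) (β : ℝ) (h v : Vec d) (G : ℕ → ℝ) (n₀ : ℕ) : Prop :=
  ∀ n : ℕ, n₀ ≤ n → ∀ r : ℝ, 0 < r → r ^ 2 * ∫ η, (1 - PolT β h η (tube d n v r)) ∂(law d ρ) ≤
    n * G n

/-- The data of a good point, bulk bound (`d = 2`). -/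
structure PqK (ρ : Measure ℝ) (β : ℝ) (h v : Vec 2) (g θ : ℝ) (K : ℕ → ℝ) (R : ℝ) : Prop where
  gap : lam ρ β h + g ≤ Real.log (Phi h) + Real.log (∫ t, Real.exp (β * t) ∂ρ)
  loc : ∀ n t : ℕ, t ≤ n →
    ∫ η, (1 - ∑ y ∈ bal v t (K n * Real.sqrt n), Qt β h n t y η) ∂(law 2 ρ) ≤ 1 / 8
  bulk : ∀ n : ℕ, Bk ρ β h θ n (K n)
  rate : ∀ n : ℕ, En ρ β h n ≤ R * (n : ℝ) ^ (49 / 100 : ℝ)

section All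

variable (d : ℕ) (ρ : Measure ℝ) (β : ℝ)

/-- C1: the velocity is a slope. -/
def Sl2 : Prop := ∀ (h v : Vec d) (c : ℝ) (n₀ : ℕ), c ≤ 1 / 10 → HW2 ρ β h v (pg 1 c) n₀ →
  ∀ k : Vec d, lam ρ β h + inner ℝ v k ≤ lam ρ β (h + k)

/-- C2: the resampling bound at all levels. -/
def Rs2 : Prop := ∀ (h v : Vec d) (G : ℕ → ℝ) (θ C s₀ : ℝ) (n₀ : ℕ), 0 < θ → θ ≤ 1 / 2 →
  0 < C → 0 < s₀ → HW2 ρ β h v G n₀ → (∀ s : ℝ, 0 < s → s ≤ s₀ → ∃ v' h' : Vec d,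
    s / 2 ≤ ‖v' - v‖ ∧ ‖v' - v‖ ≤ s ∧ ‖h' - h‖ ≤ C * ‖v' - v‖ ∧ HW2 ρ β h' v' G n₀) →
  ∃ C₁ κ : ℝ, ∃ n₁ : ℕ, 1 ≤ C₁ ∧ 0 < κ ∧ ∀ n : ℕ, n₁ ≤ n → ∀ R : ℝ, 1 ≤ R →
    R ≤ κ * Real.sqrt n → RS ρ β h n ⌊θ * n⌋₊ (C₁ * R ^ 2) (10 * (G n / R ^ 2))

/-- C3: from the levels to the bulk bound. -/
def Bk2 : Prop := ∀ (h : Vec d) (c θ C₁ κ : ℝ) (n₁ : ℕ), 0 < c → c ≤ 1 / 10 → 0 < θ → 1 ≤ C₁ →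
  0 < κ → (∀ n : ℕ, n₁ ≤ n → ∀ R : ℝ, 1 ≤ R → R ≤ κ * Real.sqrt n →
    RS ρ β h n ⌊θ * n⌋₊ (C₁ * R ^ 2) (10 * (pg 1 c n / R ^ 2))) →
  ∃ C : ℝ, 0 ≤ C ∧ ∀ n : ℕ, Bk ρ β h θ n (C * pg 1 c n * (1 + Real.log n))

/-- C4: the rate. -/
def Rt2 : Prop := ∀ (h v : Vec d) (c : ℝ) (n₀ : ℕ), c ≤ 1 / 10 → HW2 ρ β h v (pg 1 c) n₀ →
  ∃ R : ℝ, ∀ n : ℕ, En ρ β h n ≤ R * (n : ℝ) ^ (49 / 100 : ℝ)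

/-- C5: the window. -/
def Lc2 : Prop := ∀ (h v : Vec d) (c : ℝ) (n₀ : ℕ), 0 < c → c ≤ 1 / 10 →
  HW2 ρ β h v (pg 1 c) n₀ → ∃ Q : ℝ, 1 ≤ Q ∧ ∀ n t : ℕ, t ≤ n →
    ∫ η, (1 - ∑ y ∈ bal v t (pg Q c n * Real.sqrt n), Qt β h n t y η) ∂(law d ρ) ≤ 1 / 8

/-- A4: counting at the same scale. -/
def Sa2 : Prop := ∀ c₀ : ℝ, 0 < c₀ → ∃ C : ℝ, 1 ≤ C ∧ ∀ h : Vec d, Loc1 ρ β h c₀ →
  ∀ θ : ℝ, 0 < θ → θ ≤ c₀ / 4 → ∀ (m : ℕ) (x q K Φ : ℝ), 1 ≤ m → 0 < q → 0 ≤ K →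
    (∀ L : ℕ, L ≤ 2 * m → Bk ρ β h θ L K) → (∀ i : ℕ, i ≤ 2 * m → En ρ β h i ≤ Φ) →
    q ≤ (law d ρ).real {η | A ρ β h m + x ≤ X β h η m} → x ≤ C * (Φ + 1 + K / q)

/-- A5 (from `Sa2`): the integral of the upper tail. -/
def Fm2 : Prop := ∀ c₀ : ℝ, 0 < c₀ → ∃ C : ℝ, 1 ≤ C ∧ ∀ h : Vec d, Loc1 ρ β h c₀ →
  ∀ θ : ℝ, 0 < θ → θ ≤ c₀ / 4 → ∀ (m : ℕ) (K Φ Y : ℝ), 1 ≤ m → 1 ≤ K →
    (∀ L : ℕ, L ≤ 2 * m → Bk ρ β h θ L K) → (∀ i : ℕ, i ≤ 2 * m → En ρ β h i ≤ Φ) →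
    C * (Φ + 1) ≤ Y →
    ∫ η, max 0 (X β h η m - A ρ β h m - Y) ∂(law d ρ) ≤ C * K * (1 + Real.log m)

/-- The amplification, every law, no moment (the same as `AmpN` of `AM/AmpNU5.lean`). -/
def Amp2 : Prop := ∀ t : ℝ, 1 ≤ t → ∃ C : ℝ, 1 ≤ C ∧ ∀ (h : Vec d) (m : ℕ) (s₀ s₁ q : ℝ),
  0 < q → q ≤ 1 / 2 → C * (1 + Real.log (1 / q)) ≤ s₁ - s₀ →
    q ≤ (law d ρ).real {η | X β h η m ≤ s₀} → q ≤ (law d ρ).real {η | s₁ < X β h η m} →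
      q ^ C ≤ (law d ρ).real {η | s₁ + t * (s₁ - s₀) < X β h η m}

/-- A6 (from `CntP`, `Amp2`): the variance from the two fluctuations at all times. -/
def Va2 : Prop := ∀ c₀ : ℝ, 0 < c₀ → ∃ C c₁ : ℝ, 1 ≤ C ∧ 0 < c₁ ∧ ∀ h : Vec d, Loc1 ρ β h c₀ →
  ∀ c Q : ℝ, 0 < c → c ≤ c₁ → 1 ≤ Q →
    (∀ k : ℕ, En ρ β h k ≤ pg Q c k ∧ Fn ρ β h k ≤ pg Q c k) →
      ∃ Q' : ℝ, 1 ≤ Q' ∧ ∀ k : ℕ, Va ρ β h k ≤ pg Q' (C * c) k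

/-- B0: Newman-Piza backward with truncation: if the bulk deviation is at most `M / 2` with
probability at least `31 / 32`, then most of the occupation densities `Q' ≤ Q` obey the bound of
Newman and Piza with `M ^ 2` in place of the variance. -/
def Np2 : Prop := ∃ C M₀ : ℝ, 1 ≤ C ∧ 1 ≤ M₀ ∧ ∀ (h : Vec d) (L p : ℕ) (M : ℝ), M₀ ≤ M →
  (law d ρ).real {η | M / 2 < |X β h η L - cE ρ (Pa d p) (fun ζ => X β h ζ L) η|} ≤ 1 / 32 →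
  ∃ Q' : ℕ → Site d → Env d → ℝ, (∀ t y, Measurable (Q' t y)) ∧
    (∀ t y η, 0 ≤ Q' t y η ∧ Q' t y η ≤ Qt β h L t y η) ∧
    (∀ t : ℕ, p + 1 ≤ t → t ≤ L →
      ∫ η, ∑ y ∈ boxF d L, (Qt β h L t y η - Q' t y η) ∂(law d ρ) ≤ 1 / 16) ∧
    ∑ t ∈ Finset.Icc (p + 1) L,
      ∫ η, ∑ y ∈ boxF d L, (cE ρ (Pa d t)ᶜ (Q' t y) η) ^ 2 ∂(law d ρ) ≤ C * M ^ 2

end All

section Two

variable (ρ : Measure ℝ) (β : ℝ)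

/-- B1 (from `Np2`): luck from the bulk deviation. -/
def Lk2 : Prop := ∀ θ : ℝ, 0 < θ → θ ≤ 1 / 4000 → ∃ c₂ : ℝ, 0 < c₂ ∧ c₂ ≤ 1 / 2 ∧
  ∀ (h v : Vec 2) (N L : ℕ) (e K : ℝ) (S : Finset ℕ), 1000 ≤ N → 240 ≤ e → 1 ≤ K →
    (L ≤ 2 * N → B1 ρ β h L ⌊θ * L⌋₊ ≤ K) →
    (L ≤ 2 * N → ∀ t : ℕ, t ≤ L →
      ∫ η, (1 - ∑ y ∈ bal v t (K * Real.sqrt L), Qt β h L t y η) ∂(law 2 ρ) ≤ 1 / 8) →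
    (∀ k : ℕ, k ≤ 2 * N → Fn ρ β h k ≤ e / 1280) → (N : ℝ) / 200 ≤ S.card →
    (∀ t ∈ S, t ≤ L ∧ (N : ℝ) / 1000 ≤ t ∧ t ≤ N ∧ (N : ℝ) / 1000 ≤ (L - t : ℕ) ∧ L - t ≤ N ∧
      e / 20 ≤ En ρ β h t + En ρ β h (L - t) - En ρ β h L) →
    ∃ m : ℕ, 1 ≤ m ∧ m ≤ N ∧ c₂ / K ^ 4 ≤ (law 2 ρ).real {η | A ρ β h m + e / 80 < X β h η m}

/-- B2 (from `SeqP`, `Amp2`, `Sa2`, `Fm2`, `Lk2`, the balance `BalX` of the upper side): the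
nonrandom fluctuation from the bulk bound. -/
def Be2 : Prop := ∀ c₀ θ : ℝ, 0 < c₀ → 0 < θ → θ ≤ c₀ / 4 → θ ≤ 1 / 4000 →
  ∃ C : ℝ, 1 ≤ C ∧ ∀ (h v : Vec 2) (g R : ℝ) (K : ℕ → ℝ), Loc1 ρ β h c₀ → Monotone K →
    (∀ n, 1 ≤ K n) → PqK ρ β h v g θ K R → ∀ n k : ℕ, k ≤ n → 1 ≤ En ρ β h k →
      ∃ (N : ℕ) (e : ℝ), 1 ≤ N ∧ 0 < e ∧ En ρ β h k ≤ 2 * e ∧ (N : ℝ) ≤ 4 * n * e ^ 2 ∧
        e ≤ C * (1 + |R|) * K (4 * N) ^ C * (1 + Real.log N) ^ C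

/-- The balance of the upper side (the same as `BalX` of `PL/DefsPX.lean`). -/
def Bal2 (d : ℕ) : Prop := ∃ C q : ℝ, 1 ≤ C ∧ 0 < q ∧ ∀ (h : Vec d) (m : ℕ), C ≤ Fn ρ β h m →
  q ≤ (law d ρ).real {η | X β h η m ≤ A ρ β h m + Fn ρ β h m / 16}

/-- B4 (from `Be2`, `NuK`, `Fm2`, `Va2`, `LocE`): the variance at a good point. -/
def Pb2 : Prop := ∀ g : ℝ, 0 < g → ∃ θ C c₁ : ℝ, 0 < θ ∧ θ ≤ 1 / 4000 ∧ 1 ≤ C ∧ 0 < c₁ ∧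
  ∀ (h v : Vec 2) (Q c R : ℝ), 1 ≤ Q → 0 < c → c ≤ c₁ → PqK ρ β h v g θ (pg Q c) R →
    ∃ Q' : ℝ, 1 ≤ Q' ∧ PwK ρ β h v g (pg Q' (C * c)) R

/-- The theorem (`d = 2`). -/
def MainW2 : Prop := ∀ᵐ v : Vec 2, ∀ h : Vec 2, VSD ρ β h → ∃ c : ℝ, 0 < c ∧ ∃ᶠ n : ℕ in atTop,
  ∃ r : ℝ, 0 < r ∧ (n : ℝ) ^ (1 + c) <
    r ^ 2 * ∫ η, (1 - PolT β h η (tube 2 n v r)) ∂(law 2 ρ)

end Two

end Pool.Agent.W_7d29a1_W2
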